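import Pool.Agent.W700.KK.Fin

/-!
MP_d957af_an, Q1, the part on compact operators: there is a Banach space `E` such that the algebra `K(E)`
of compact operators is not the linear span of its products, `K(E)^2 ≠ K(E)`.
-/

set_option autoImplicit false

namespace Pool.Agent.Results.MP_d957af_an.CompactProductsNotAll

/-- There is a complex Banach space `E` with a compact operator `T` which is not a finite linear
combination of products of two compact operators. -/
theorem result : ∃ (E : Type) (_ : NormedAddCommGroup E) (_ : NormedSpace ℂ E)
    (_ : CompleteSpace E) (T : E →L[ℂ] E), IsCompactOperator T ∧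
    T ∉ Submodule.span ℂ {U : E →L[ℂ] E | ∃ A B : E →L[ℂ] E,
      IsCompactOperator A ∧ IsCompactOperator B ∧ U = A.comp B} :=
  W700.KK.main

end Pool.Agent.Results.MP_d957af_an.CompactProductsNotAll
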