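import Pool.Agent.W700.PS.Fin
import Pool.Agent.W37.PS.T1

/-!
MP_d957af_an, Q1: there is a Banach space `E` such that the algebra `F(E)` of approximable operators
is not the linear span of its products, `F(E)^2 ≠ F(E)`.
-/

set_option autoImplicit false

namespace Pool.Agent.Results.MP_d957af_an.ProductsNotAll

/-- `T` is approximable: a limit in operator norm of bounded finite rank operators. -/
def Approximable {E : Type} [NormedAddCommGroup E] [NormedSpace ℂ E] (T : E →L[ℂ] E) : Prop :=
  T ∈ closure {S : E →L[ℂ] E | FiniteDimensional ℂ (LinearMap.range (S : E →ₗ[ℂ] E))}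

/-- There is a complex Banach space `E` with an approximable operator `T` which is not a finite linear
combination of products of two approximable operators. -/
theorem result : ∃ (E : Type) (_ : NormedAddCommGroup E) (_ : NormedSpace ℂ E)
    (_ : CompleteSpace E) (T : E →L[ℂ] E), Approximable T ∧
    T ∉ Submodule.span ℂ {U : E →L[ℂ] E | ∃ A B : E →L[ℂ] E,
      Approximable A ∧ Approximable B ∧ U = A.comp B} := by
  obtain ⟨u, hu, hu2⟩ := W700.PS.final W37.PS.main
  have key : ∀ a : W700.PS.PP →L[ℂ] W700.PS.PP,
      Approximable a ↔ a ∈ (W700.PS.FRk W700.PS.PP).topologicalClosure := by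
    intro a
    unfold Approximable
    rw [← W700.PS.FRk_eq]
    rfl
  refine ⟨W700.PS.PP, inferInstance, inferInstance, inferInstance, u, (key u).2 hu, ?_⟩
  intro h
  apply hu2
  refine Submodule.span_mono ?_ h
  rintro U ⟨A, B, hA, hB, rfl⟩
  exact ⟨A, (key A).1 hA, B, (key B).1 hB, rfl⟩

end Pool.Agent.Results.MP_d957af_an.ProductsNotAll
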